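import Mathlib

set_option autoImplicit false

/-!
# The extreme points of the hull of the conjugate degree sequences

For even `n` the hull is a simplex, whose vertices come from the regular graphs. For odd `n` the
vertices come from the regular graphs and from the graphs in which all vertices but one have the
same odd degree.
-/

namespace Pool.Agent.Results.MP_1867d3_co.ExtremeConjugate

open Finset

section Defs

open Classical in
/-- The degree of a vertex. -/
noncomputable def deg {V : Type*} [Fintype V] (G : SimpleGraph V) (v : V) : ℕ := G.degree v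

open Classical in
/-- The conjugate degree sequence `(d*_1, …, d*_n)` of a graph on `n` vertices: its entry number
`k + 1`, for `k = 0, …, n - 1`, is the number of vertices of degree at least `k + 1`. -/
noncomputable def conjDeg {n : ℕ} (G : SimpleGraph (Fin n)) : Fin n → ℝ := fun k =>
  ((univ.filter fun v => (k : ℕ) + 1 ≤ deg G v).card : ℝ)

/-- The convex hull `C_n` of the conjugate degree sequences of the graphs on `n` vertices. -/
noncomputable def C (n : ℕ) : Set (Fin n → ℝ) :=
  convexHull ℝ (Set.range fun G : SimpleGraph (Fin n) => conjDeg G)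

/-- The sequence of length `n` that starts with `r` ones, followed by zeros. -/
noncomputable def ones (n r : ℕ) : Fin n → ℝ := fun k => if (k : ℕ) < r then 1 else 0

end Defs

/-! ### Multiplicities of the degrees, read off from a conjugate sequence -/

/-- The sequence `n, x 0, x 1, …, x (n - 1), 0, 0, …`. -/
noncomputable def ext {n : ℕ} (x : Fin n → ℝ) (i : ℕ) : ℝ :=
  if i = 0 then n else if h : i - 1 < n then x ⟨i - 1, h⟩ else 0

/-- The multiplicity of the degree `i`. -/
noncomputable def mult {n : ℕ} (x : Fin n → ℝ) (i : ℕ) : ℝ := ext x i - ext x (i + 1)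

theorem ext_zero {n : ℕ} (x : Fin n → ℝ) : ext x 0 = n := by simp [ext]

theorem ext_succ {n : ℕ} (x : Fin n → ℝ) {k : ℕ} (h : k < n) : ext x (k + 1) = x ⟨k, h⟩ := by
  simp [ext, h]

theorem sum_mult {n : ℕ} (x : Fin n → ℝ) (m : ℕ) :
    ∑ i ∈ range m, mult x i = n - ext x m := by
  rw [← ext_zero x]
  exact Finset.sum_range_sub' (ext x) m

theorem eq_of_mult {n : ℕ} {x y : Fin n → ℝ} (h : ∀ i < n, mult x i = mult y i) : x = y := by
  have key : ∀ m, m ≤ n → ext x m = ext y m := by
    intro m hm
    have h1 := sum_mult x m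
    have h2 := sum_mult y m
    have h3 : ∑ i ∈ range m, mult x i = ∑ i ∈ range m, mult y i :=
      Finset.sum_congr rfl fun i hi => h i (lt_of_lt_of_le (Finset.mem_range.1 hi) hm)
    linarith
  funext k
  have := key (k + 1) k.2
  rwa [ext_succ x k.2, ext_succ y k.2] at this

theorem ext_affine {n : ℕ} (x y : Fin n → ℝ) {a b : ℝ} (hab : a + b = 1) (i : ℕ) :
    ext (a • x + b • y) i = a * ext x i + b * ext y i := by
  unfold ext
  split_ifs
  · rw [← add_mul, hab, one_mul]
  · simp
  · simp

theorem mult_affine {n : ℕ} (x y : Fin n → ℝ) {a b : ℝ} (hab : a + b = 1) (i : ℕ) :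
    mult (a • x + b • y) i = a * mult x i + b * mult y i := by
  unfold mult
  rw [ext_affine x y hab, ext_affine x y hab]
  ring

theorem deg_lt {n : ℕ} (G : SimpleGraph (Fin n)) (v : Fin n) : deg G v < n := by
  classical
  have := G.degree_lt_card_verts v
  rw [Fintype.card_fin] at this
  unfold deg
  convert this

theorem ext_conjDeg {n : ℕ} (G : SimpleGraph (Fin n)) {i : ℕ} (hi : i ≤ n) :
    ext (conjDeg G) i = ((univ.filter fun v => i ≤ deg G v).card : ℝ) := by
  rcases i with _ | k
  · rw [ext_zero]
    simp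
  · rw [ext_succ _ (by omega)]
    rfl

theorem ext_conjDeg_last {n : ℕ} (G : SimpleGraph (Fin n)) : ext (conjDeg G) n = 0 := by
  rw [ext_conjDeg G le_rfl]
  have : (univ.filter fun v => n ≤ deg G v) = ∅ := by
    rw [Finset.filter_eq_empty_iff]
    intro v _
    have := deg_lt G v
    omega
  rw [this]
  simp

theorem mult_conjDeg {n : ℕ} (G : SimpleGraph (Fin n)) {i : ℕ} (hi : i < n) :
    mult (conjDeg G) i = ((univ.filter fun v => deg G v = i).card : ℝ) := by
  unfold mult
  rw [ext_conjDeg G hi.le, ext_conjDeg G hi]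
  have : (univ.filter fun v => i ≤ deg G v) =
      (univ.filter fun v => deg G v = i) ∪ (univ.filter fun v => i + 1 ≤ deg G v) := by
    ext v
    simp only [mem_filter, mem_univ, true_and, mem_union]
    omega
  rw [this, Finset.card_union_of_disjoint]
  · push_cast; ring
  · rw [Finset.disjoint_filter]
    intro v _ h1
    omega

theorem ext_ones {n r : ℕ} (_hr : r < n) (a : ℝ) {i : ℕ} (hi : 1 ≤ i) (hin : i ≤ n) :
    ext (a • ones n r) i = if i ≤ r then a else 0 := by
  obtain ⟨k, rfl⟩ := Nat.exists_eq_add_of_le hi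
  rw [add_comm, ext_succ _ (by omega)]
  simp only [Pi.smul_apply, ones, smul_eq_mul]
  by_cases h : k < r
  · rw [if_pos h, if_pos (by omega), mul_one]
  · rw [if_neg h, if_neg (by omega), mul_zero]

/-- The sequence `ones` as a sum over the vertices. -/
theorem conjDeg_eq_sum {n : ℕ} (G : SimpleGraph (Fin n)) :
    conjDeg G = ∑ v, ones n (deg G v) := by
  funext k
  rw [Finset.sum_apply]
  simp only [conjDeg, ones, Finset.sum_boole, Nat.lt_iff_add_one_le]

/-- The handshake lemma: the number of vertices of odd degree is even. -/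
theorem even_odd_card {n : ℕ} (G : SimpleGraph (Fin n)) :
    Even (univ.filter fun v => Odd (deg G v)).card := by
  classical
  have h := G.even_card_odd_degree_vertices
  have e : (univ.filter fun v => Odd (deg G v)) = univ.filter fun v => Odd (G.degree v) := by
    ext v
    simp only [mem_filter, mem_univ, true_and]
    rw [show deg G v = G.degree v by unfold deg; congr]
  rw [e]
  exact h

theorem ext_ones' {n r : ℕ} (hr : r < n) {i : ℕ} (hi : 1 ≤ i) (hin : i ≤ n) :
    ext (ones n r) i = if i ≤ r then 1 else 0 := by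
  have := ext_ones hr 1 hi hin
  rwa [one_smul] at this

theorem mult_smul_ones {n r : ℕ} (hr : r < n) {i : ℕ} (hi : i < n) :
    mult ((n : ℝ) • ones n r) i = if i = r then (n : ℝ) else 0 := by
  unfold mult
  rcases Nat.eq_zero_or_pos i with rfl | h0
  · rw [ext_zero, ext_ones hr _ le_rfl (by omega)]
    by_cases h : 0 = r
    · rw [if_pos h, if_neg (by omega), sub_zero]
    · rw [if_neg h, if_pos (by omega), sub_self]
  · rw [ext_ones hr _ h0 hi.le, ext_ones hr _ (by omega) (by omega)]
    by_cases h : i = r
    · rw [if_pos h, if_pos (by omega), if_neg (by omega), sub_zero]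
    · rw [if_neg h]
      by_cases h' : i ≤ r
      · rw [if_pos h', if_pos (by omega), sub_self]
      · rw [if_neg h', if_neg (by omega), sub_self]

theorem mult_two {n s r : ℕ} (hs : s < n) (hr : r < n) (hsr : s ≠ r) {i : ℕ} (hi : i < n) :
    mult (((n : ℝ) - 1) • ones n s + ones n r) i =
      if i = s then (n : ℝ) - 1 else if i = r then 1 else 0 := by
  have hn : (n : ℝ) ≠ 0 := by
    have : 0 < n := by omega
    positivity
  have e : ((n : ℝ) - 1) • ones n s + ones n r =
      (1 - 1 / (n : ℝ)) • ((n : ℝ) • ones n s) + (1 / (n : ℝ)) • ((n : ℝ) • ones n r) := by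
    rw [smul_smul, smul_smul]
    congr 1
    · congr 1
      field_simp
    · rw [one_div, inv_mul_cancel₀ hn, one_smul]
  rw [e, mult_affine _ _ (by ring), mult_smul_ones hs hi, mult_smul_ones hr hi]
  by_cases h1 : i = s
  · rw [if_pos h1, if_neg (by omega), if_pos h1]
    field_simp
    ring
  · rw [if_neg h1, if_neg h1]
    by_cases h2 : i = r
    · rw [if_pos h2, if_pos h2]
      field_simp
      ring
    · rw [if_neg h2, if_neg h2]
      ring

/-! ### The linear constraints -/

/-- The constraints satisfied by all points of `C n`. -/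
def K (n : ℕ) : Set (Fin n → ℝ) :=
  {x | (∀ i < n, 0 ≤ mult x i) ∧ ext x n = 0 ∧
    (Odd n → ∑ i ∈ (range n).filter Odd, mult x i ≤ n - 1)}

theorem convex_K (n : ℕ) : Convex ℝ (K n) := by
  intro x hx y hy a b ha hb hab
  refine ⟨fun i hi => ?_, ?_, fun hn => ?_⟩
  · rw [mult_affine x y hab]
    exact add_nonneg (mul_nonneg ha (hx.1 i hi)) (mul_nonneg hb (hy.1 i hi))
  · rw [ext_affine x y hab, hx.2.1, hy.2.1]
    ring
  · simp only [mult_affine x y hab]
    rw [Finset.sum_add_distrib, ← Finset.mul_sum, ← Finset.mul_sum]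
    have h1 := mul_le_mul_of_nonneg_left (hx.2.2 hn) ha
    have h2 := mul_le_mul_of_nonneg_left (hy.2.2 hn) hb
    have h3 : a * ((n : ℝ) - 1) + b * ((n : ℝ) - 1) = (n : ℝ) - 1 := by
      rw [← add_mul, hab, one_mul]
    linarith

theorem C_subset_K (n : ℕ) : C n ⊆ K n := by
  apply convexHull_min _ (convex_K n)
  rintro _ ⟨G, rfl⟩
  refine ⟨fun i hi => ?_, ext_conjDeg_last G, fun hn => ?_⟩
  · show 0 ≤ mult (conjDeg G) i
    rw [mult_conjDeg G hi]
    positivity
  · have e : ∑ i ∈ (range n).filter Odd, mult (conjDeg G) i =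
        ((univ.filter fun v => Odd (deg G v)).card : ℝ) := by
      have h1 : ∀ i ∈ (range n).filter Odd, mult (conjDeg G) i =
          ((univ.filter fun v => deg G v = i).card : ℝ) := by
        intro i hi
        exact mult_conjDeg G (Finset.mem_range.1 (Finset.mem_filter.1 hi).1)
      rw [Finset.sum_congr rfl h1, ← Nat.cast_sum]
      congr 1
      have h2 : (univ.filter fun v => Odd (deg G v)) =
          ((range n).filter Odd).biUnion fun i => univ.filter fun v => deg G v = i := by
        ext v
        simp only [mem_filter, mem_univ, true_and, mem_biUnion, mem_range]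
        constructor
        · intro h
          exact ⟨deg G v, ⟨deg_lt G v, h⟩, rfl⟩
        · rintro ⟨i, ⟨-, h⟩, rfl⟩
          exact h
      rw [h2, Finset.card_biUnion]
      intro i _ j _ hij
      show Disjoint (univ.filter fun v => deg G v = i) (univ.filter fun v => deg G v = j)
      rw [Finset.disjoint_filter]
      intro v _ h3 h4
      exact hij (h3.symm.trans h4)
    show ∑ i ∈ (range n).filter Odd, mult (conjDeg G) i ≤ n - 1
    rw [e]
    have h1 := even_odd_card G
    have h2 : (univ.filter fun v => Odd (deg G v)).card ≤ n := by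
      have := Finset.card_filter_le (univ : Finset (Fin n)) fun v => Odd (deg G v)
      rwa [Finset.card_univ, Fintype.card_fin] at this
    have h3 : (univ.filter fun v => Odd (deg G v)).card ≠ n := by
      intro h
      rw [h] at h1
      exact (Nat.not_even_iff_odd.2 hn) h1
    have h4 : (univ.filter fun v => Odd (deg G v)).card + 1 ≤ n := by omega
    have h5 : (((univ.filter fun v => Odd (deg G v)).card : ℝ)) + 1 ≤ n := by exact_mod_cast h4
    linarith

theorem sum_mult_of_mem {n : ℕ} {x : Fin n → ℝ} (hx : x ∈ K n) :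
    ∑ i ∈ range n, mult x i = n := by
  rw [sum_mult, hx.2.1, sub_zero]

/-- `n` times `ones` is an extreme point as soon as it lies in `C n`. -/
theorem extreme_one {n r : ℕ} (hr : r < n) (hmem : (n : ℝ) • ones n r ∈ C n) :
    (n : ℝ) • ones n r ∈ (C n).extremePoints ℝ := by
  have key : ∀ x ∈ C n, (∀ i < n, i ≠ r → mult x i = 0) → x = (n : ℝ) • ones n r := by
    intro x hx h
    apply eq_of_mult
    intro i hi
    rw [mult_smul_ones hr hi]
    split_ifs with h1
    · subst h1
      have h2 := sum_mult_of_mem (C_subset_K n hx)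
      rw [Finset.sum_eq_single i] at h2
      · exact h2
      · intro j hj hji
        exact h j (Finset.mem_range.1 hj) hji
      · intro h3
        exact absurd (Finset.mem_range.2 hi) h3
    · exact h i hi h1
  rw [mem_extremePoints]
  refine ⟨hmem, fun x hx y hy hxy => ?_⟩
  obtain ⟨a, b, ha, hb, hab, he⟩ := hxy
  have h0 : ∀ i < n, i ≠ r → mult x i = 0 ∧ mult y i = 0 := by
    intro i hi hir
    have h1 := mult_affine x y hab i
    rw [he, mult_smul_ones hr hi, if_neg hir] at h1
    have h2 := (C_subset_K n hx).1 i hi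
    have h3 := (C_subset_K n hy).1 i hi
    have h4 := mul_nonneg ha.le h2
    have h5 := mul_nonneg hb.le h3
    have h6 : a * mult x i = 0 := by linarith
    have h7 : b * mult y i = 0 := by linarith
    exact ⟨(mul_eq_zero.1 h6).resolve_left ha.ne', (mul_eq_zero.1 h7).resolve_left hb.ne'⟩
  exact ⟨key x hx fun i hi hir => (h0 i hi hir).1, key y hy fun i hi hir => (h0 i hi hir).2⟩

/-- For odd `n` the mixed points are extreme as soon as they lie in `C n`. -/
theorem extreme_two {n s r : ℕ} (hn : Odd n) (hs : s < n) (hr : r < n) (hso : Odd s)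
    (hre : Even r) (hmem : ((n : ℝ) - 1) • ones n s + ones n r ∈ C n) :
    ((n : ℝ) - 1) • ones n s + ones n r ∈ (C n).extremePoints ℝ := by
  have hsr : s ≠ r := by
    rintro rfl
    exact (Nat.not_even_iff_odd.2 hso) hre
  have bound : ∀ x ∈ C n, mult x s ≤ n - 1 := by
    intro x hx
    have h1 := (C_subset_K n hx).2.2 hn
    have h2 : mult x s ≤ ∑ i ∈ (range n).filter Odd, mult x i := by
      apply Finset.single_le_sum (f := fun i => mult x i)
      · intro i hi
        exact (C_subset_K n hx).1 i (Finset.mem_range.1 (Finset.mem_filter.1 hi).1)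
      · exact Finset.mem_filter.2 ⟨Finset.mem_range.2 hs, hso⟩
    linarith
  have key : ∀ x ∈ C n, (∀ i < n, i ≠ s → i ≠ r → mult x i = 0) → mult x s = n - 1 →
      x = ((n : ℝ) - 1) • ones n s + ones n r := by
    intro x hx h hxs
    have h2 := sum_mult_of_mem (C_subset_K n hx)
    have h3 : ∑ i ∈ range n, mult x i = mult x s + mult x r := by
      rw [← Finset.sum_pair hsr]
      symm
      apply Finset.sum_subset
      · intro i hi
        simp only [mem_insert, mem_singleton] at hi
        rcases hi with rfl | rfl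
        · exact Finset.mem_range.2 hs
        · exact Finset.mem_range.2 hr
      · intro i hi hi'
        simp only [mem_insert, mem_singleton, not_or] at hi'
        exact h i (Finset.mem_range.1 hi) hi'.1 hi'.2
    apply eq_of_mult
    intro i hi
    rw [mult_two hs hr hsr hi]
    split_ifs with h4 h5
    · rw [h4, hxs]
    · rw [h5]; linarith
    · exact h i hi h4 h5
  rw [mem_extremePoints]
  refine ⟨hmem, fun x hx y hy hxy => ?_⟩
  obtain ⟨a, b, ha, hb, hab, he⟩ := hxy
  have h0 : ∀ i < n, i ≠ s → i ≠ r → mult x i = 0 ∧ mult y i = 0 := by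
    intro i hi his hir
    have h1 := mult_affine x y hab i
    rw [he, mult_two hs hr hsr hi, if_neg his, if_neg hir] at h1
    have h2 := (C_subset_K n hx).1 i hi
    have h3 := (C_subset_K n hy).1 i hi
    have h4 := mul_nonneg ha.le h2
    have h5 := mul_nonneg hb.le h3
    have h6 : a * mult x i = 0 := by linarith
    have h7 : b * mult y i = 0 := by linarith
    exact ⟨(mul_eq_zero.1 h6).resolve_left ha.ne', (mul_eq_zero.1 h7).resolve_left hb.ne'⟩
  have h1 := mult_affine x y hab s
  rw [he, mult_two hs hr hsr hs, if_pos rfl] at h1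
  have h2 := mul_le_mul_of_nonneg_left (bound x hx) ha.le
  have h3 := mul_le_mul_of_nonneg_left (bound y hy) hb.le
  have h4 : a * ((n : ℝ) - 1) + b * ((n : ℝ) - 1) = (n : ℝ) - 1 := by
    rw [← add_mul, hab, one_mul]
  have h5 : a * (mult x s - (n - 1)) = 0 := by linarith
  have h6 : b * (mult y s - (n - 1)) = 0 := by linarith
  have h7 := (mul_eq_zero.1 h5).resolve_left ha.ne'
  have h8 := (mul_eq_zero.1 h6).resolve_left hb.ne'
  exact ⟨key x hx (fun i hi his hir => (h0 i hi his hir).1) (by linarith),
    key y hy (fun i hi his hir => (h0 i hi his hir).2) (by linarith)⟩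

/-! ### The hull is spanned by the special points -/

/-- The set of special points. -/
def T (n : ℕ) : Set (Fin n → ℝ) :=
  {x | (∃ r < n, (Even n ∨ Even r) ∧ x = (n : ℝ) • ones n r) ∨
    (Odd n ∧ ∃ s < n, ∃ r < n, Odd s ∧ Even r ∧ x = ((n : ℝ) - 1) • ones n s + ones n r)}

theorem avg_mem {ι E : Type*} [AddCommGroup E] [Module ℝ E] {S : Set E} (hS : Convex ℝ S)
    {t : Finset ι} (ht : t.Nonempty) {f : ι → E} (hf : ∀ i ∈ t, f i ∈ S) :
    (t.card : ℝ)⁻¹ • ∑ i ∈ t, f i ∈ S := by
  rw [Finset.smul_sum]
  have hc : (t.card : ℝ) ≠ 0 := by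
    have := ht.card_pos
    positivity
  apply hS.sum_mem (fun i _ => by positivity) _ hf
  rw [Finset.sum_const, nsmul_eq_mul, mul_inv_cancel₀ hc]

theorem conjDeg_mem_of_all {n : ℕ} (hn : 1 ≤ n) (G : SimpleGraph (Fin n))
    (h : ∀ v, Even n ∨ Even (deg G v)) : conjDeg G ∈ convexHull ℝ (T n) := by
  have hn0 : (n : ℝ) ≠ 0 := by positivity
  have : Nonempty (Fin n) := ⟨⟨0, hn⟩⟩
  have h1 := avg_mem (convex_convexHull ℝ (T n)) (t := (univ : Finset (Fin n)))
    univ_nonempty (f := fun v => (n : ℝ) • ones n (deg G v))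
    (fun v _ => subset_convexHull ℝ _ (Or.inl ⟨deg G v, deg_lt G v, h v, rfl⟩))
  rw [← Finset.smul_sum, smul_smul, Finset.card_univ, Fintype.card_fin, inv_mul_cancel₀ hn0,
    one_smul, ← conjDeg_eq_sum] at h1
  exact h1

theorem conjDeg_mem_of_odd {n : ℕ} (hn : Odd n) (G : SimpleGraph (Fin n)) :
    conjDeg G ∈ convexHull ℝ (T n) := by
  have hn1 : 1 ≤ n := hn.pos
  set So := univ.filter fun v => Odd (deg G v) with hSo
  set Se := univ.filter fun v => ¬ Odd (deg G v) with hSe
  have hcard : So.card + Se.card = n := by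
    have := Finset.card_filter_add_card_filter_not (s := (univ : Finset (Fin n)))
      (p := fun v => Odd (deg G v))
    rwa [Finset.card_univ, Fintype.card_fin] at this
  have hSoe : Even So.card := even_odd_card G
  have hSeo : Odd Se.card := by
    rw [← hcard] at hn
    exact (Nat.odd_add'.1 hn).2 hSoe
  have hSe1 : Se.Nonempty := Finset.card_pos.1 hSeo.pos
  rcases So.eq_empty_or_nonempty with h0 | h0
  · apply conjDeg_mem_of_all hn1
    intro v
    right
    by_contra hv
    have : v ∈ So := by
      rw [hSo, mem_filter]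
      exact ⟨mem_univ v, Nat.not_even_iff_odd.1 hv⟩
    rw [h0] at this
    simp at this
  · have hc := convex_convexHull ℝ (T n)
    set A : Fin n → ℝ := (So.card : ℝ)⁻¹ • ∑ v ∈ So, ones n (deg G v) with hA
    set B : Fin n → ℝ := (Se.card : ℝ)⁻¹ • ∑ v ∈ Se, ones n (deg G v) with hB
    have hO : (So.card : ℝ) ≠ 0 := by
      have := h0.card_pos
      positivity
    have hE : (Se.card : ℝ) ≠ 0 := by
      have := hSe1.card_pos
      positivity
    have b1 : (n : ℝ) • B ∈ convexHull ℝ (T n) := by
      have h1 := avg_mem hc hSe1 (f := fun v => (n : ℝ) • ones n (deg G v))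
        (fun v hv => subset_convexHull ℝ _ (Or.inl ⟨deg G v, deg_lt G v,
          Or.inr (Nat.not_odd_iff_even.1 (Finset.mem_filter.1 hv).2), rfl⟩))
      rwa [← Finset.smul_sum, smul_comm] at h1
    have b2 : ∀ w ∈ Se, ((n : ℝ) - 1) • A + ones n (deg G w) ∈ convexHull ℝ (T n) := by
      intro w hw
      have h1 := avg_mem hc h0
        (f := fun v => ((n : ℝ) - 1) • ones n (deg G v) + ones n (deg G w))
        (fun v hv => subset_convexHull ℝ _ (Or.inr ⟨hn, deg G v, deg_lt G v, deg G w,
          deg_lt G w, (Finset.mem_filter.1 hv).2,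
          Nat.not_odd_iff_even.1 (Finset.mem_filter.1 hw).2, rfl⟩))
      rw [Finset.sum_add_distrib, smul_add, ← Finset.smul_sum, smul_comm, Finset.sum_const,
        ← Nat.cast_smul_eq_nsmul ℝ, smul_smul (So.card : ℝ)⁻¹, inv_mul_cancel₀ hO, one_smul] at h1
      exact h1
    have b3 : ((n : ℝ) - 1) • A + B ∈ convexHull ℝ (T n) := by
      have h1 := avg_mem hc hSe1 (f := fun w => ((n : ℝ) - 1) • A + ones n (deg G w)) b2
      rw [Finset.sum_add_distrib, smul_add, Finset.sum_const, ← Nat.cast_smul_eq_nsmul ℝ,
        smul_smul (Se.card : ℝ)⁻¹, inv_mul_cancel₀ hE, one_smul] at h1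
      exact h1
    have hOn : (So.card : ℝ) + Se.card = n := by exact_mod_cast hcard
    have hE1 : (1 : ℝ) ≤ Se.card := by
      have := hSe1.card_pos
      exact_mod_cast this
    have hO1 : (1 : ℝ) ≤ So.card := by
      have := h0.card_pos
      exact_mod_cast this
    have hn1' : (0 : ℝ) < (n : ℝ) - 1 := by linarith
    have b4 := hc b3 b1 (a := (So.card : ℝ) / ((n : ℝ) - 1))
      (b := 1 - (So.card : ℝ) / ((n : ℝ) - 1)) (by positivity)
      (by
        rw [sub_nonneg, div_le_one hn1']
        linarith) (by ring)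
    have e : conjDeg G = ((So.card : ℝ) / ((n : ℝ) - 1)) • (((n : ℝ) - 1) • A + B) +
        (1 - (So.card : ℝ) / ((n : ℝ) - 1)) • ((n : ℝ) • B) := by
      have e1 : conjDeg G = (So.card : ℝ) • A + (Se.card : ℝ) • B := by
        rw [hA, hB, smul_smul, smul_smul, mul_inv_cancel₀ hO, mul_inv_cancel₀ hE, one_smul,
          one_smul, conjDeg_eq_sum]
        exact (Finset.sum_filter_add_sum_filter_not _ _ _).symm
      rw [e1]
      have e2 : (Se.card : ℝ) = n - So.card := by linarith
      rw [e2]
      have hne := hn1'.ne'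
      match_scalars <;> field_simp <;> ring
    rw [e]
    exact b4

theorem C_subset_hull {n : ℕ} (hn : 1 ≤ n) : C n ⊆ convexHull ℝ (T n) := by
  apply convexHull_min _ (convex_convexHull ℝ _)
  rintro _ ⟨G, rfl⟩
  rcases Nat.even_or_odd n with h | h
  · exact conjDeg_mem_of_all hn G fun _ => Or.inl h
  · exact conjDeg_mem_of_odd h G

/-! ### Constructions of graphs -/

theorem exists_invariant {α : Type*} [DecidableEq α] (τ : α → α) (F : Finset α)
    (hF : ∀ x ∈ F, τ x ∈ F) (hτ : ∀ x ∈ F, τ (τ x) = x) (hfix : ∀ x ∈ F, τ x ≠ x) (k : ℕ)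
    (hk : 2 * k ≤ F.card) : ∃ R ⊆ F, R.card = 2 * k ∧ ∀ x ∈ R, τ x ∈ R := by
  induction k with
  | zero => exact ⟨∅, by simp, by simp, by simp⟩
  | succ k ih =>
    obtain ⟨R, hRF, hRc, hR⟩ := ih (by omega)
    obtain ⟨x, hxF, hxR⟩ : ∃ x ∈ F, x ∉ R := by
      by_contra hall
      push Not at hall
      have := Finset.card_le_card (show F ⊆ R from hall)
      omega
    have hτx : τ x ∉ R := by
      intro h
      apply hxR
      rw [← hτ x hxF]
      exact hR _ h
    refine ⟨insert x (insert (τ x) R), ?_, ?_, ?_⟩
    · intro y hy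
      simp only [mem_insert] at hy
      rcases hy with rfl | rfl | hy
      · exact hxF
      · exact hF _ hxF
      · exact hRF hy
    · rw [card_insert_of_notMem, card_insert_of_notMem hτx, hRc]
      · ring
      · simp only [mem_insert, not_or]
        exact ⟨(hfix x hxF).symm, hxR⟩
    · intro y hy
      simp only [mem_insert] at hy ⊢
      rcases hy with rfl | rfl | hy
      · right; left; rfl
      · left; exact hτ x hxF
      · right; right; exact hR y hy

theorem deg_eq_card {V : Type*} [Fintype V] [DecidableEq V] (G : SimpleGraph V) (v : V)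
    (s : Finset V) (h : ∀ w, w ∈ s ↔ G.Adj v w) : deg G v = s.card := by
  classical
  unfold deg
  rw [← SimpleGraph.card_neighborFinset_eq_degree]
  congr 1
  ext w
  rw [SimpleGraph.mem_neighborFinset, h]

theorem deg_comap {V : Type*} [Fintype V] {n : ℕ} (e : Fin n ≃ V) (G : SimpleGraph V)
    (i : Fin n) : deg (G.comap e) i = deg G (e i) := by
  classical
  unfold deg
  exact ((SimpleGraph.Iso.comap e G).degree_eq i).symm

/-- The circulant graph. -/
def circ {m : ℕ} (S : Finset (ZMod m)) (h0 : (0 : ZMod m) ∉ S) (hneg : ∀ x ∈ S, -x ∈ S) :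
    SimpleGraph (ZMod m) where
  Adj x y := y - x ∈ S
  symm := ⟨fun x y h => by
    have := hneg _ h
    rwa [neg_sub] at this⟩
  loopless := ⟨fun x h => by
    rw [sub_self] at h
    exact h0 h⟩

theorem deg_circ {m : ℕ} [NeZero m] (S : Finset (ZMod m)) (h0 : (0 : ZMod m) ∉ S)
    (hneg : ∀ x ∈ S, -x ∈ S) (x : ZMod m) : deg (circ S h0 hneg) x = S.card := by
  classical
  rw [deg_eq_card _ _ (S.map (Equiv.addLeft x).toEmbedding), Finset.card_map]
  intro w
  simp only [mem_map_equiv, circ]
  rw [Equiv.addLeft_symm, Equiv.coe_addLeft]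
  show -x + w ∈ S ↔ w - x ∈ S
  rw [neg_add_eq_sub]

/-- The exchange graph: from the circulant graph, remove the edges `{x, x + t}` with `x ∈ R` and
join their endpoints to a new vertex. -/
def exch {m : ℕ} (S : Finset (ZMod m)) (h0 : (0 : ZMod m) ∉ S) (hneg : ∀ x ∈ S, -x ∈ S)
    (t : ZMod m) (ht : t + t = 0) (R : Finset (ZMod m)) (hR : ∀ x ∈ R, x + t ∈ R) :
    SimpleGraph (Option (ZMod m)) where
  Adj a b := match a, b with
    | none, none => False
    | none, some y => y ∈ R
    | some x, none => x ∈ R
    | some x, some y => y - x ∈ S ∧ ¬ (y = x + t ∧ x ∈ R)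
  symm := ⟨fun a b h => by
    rcases a with _ | x <;> rcases b with _ | y
    · exact h
    · exact h
    · exact h
    · refine ⟨?_, ?_⟩
      · have := hneg _ h.1
        rwa [neg_sub] at this
      · rintro ⟨h1, h2⟩
        apply h.2
        refine ⟨?_, ?_⟩
        · rw [h1, add_assoc, ht, add_zero]
        · rw [h1]
          exact hR _ h2⟩
  loopless := ⟨fun a h => by
    rcases a with _ | x
    · exact h
    · have h' : x - x ∈ S ∧ ¬ (x = x + t ∧ x ∈ R) := h
      rw [sub_self] at h'
      exact h0 h'.1⟩

theorem deg_exch_none {m : ℕ} [NeZero m] (S : Finset (ZMod m)) (h0 : (0 : ZMod m) ∉ S)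
    (hneg : ∀ x ∈ S, -x ∈ S) (t : ZMod m) (ht : t + t = 0) (R : Finset (ZMod m))
    (hR : ∀ x ∈ R, x + t ∈ R) : deg (exch S h0 hneg t ht R hR) none = R.card := by
  classical
  rw [deg_eq_card _ _ (R.map Function.Embedding.some), Finset.card_map]
  intro w
  rcases w with _ | y
  · simp [exch]
  · simp [exch]

theorem deg_exch_some {m : ℕ} [NeZero m] (S : Finset (ZMod m)) (h0 : (0 : ZMod m) ∉ S)
    (hneg : ∀ x ∈ S, -x ∈ S) (t : ZMod m) (ht : t + t = 0) (htS : t ∈ S) (R : Finset (ZMod m))
    (hR : ∀ x ∈ R, x + t ∈ R) (x : ZMod m) :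
    deg (exch S h0 hneg t ht R hR) (some x) = S.card := by
  classical
  by_cases hx : x ∈ R
  · rw [deg_eq_card _ _ (insert none (((S.erase t).map (Equiv.addLeft x).toEmbedding).map
      Function.Embedding.some)), Finset.card_insert_of_notMem (by simp), Finset.card_map,
      Finset.card_map, Finset.card_erase_add_one htS]
    intro w
    rcases w with _ | y
    · simp [exch, hx]
    · simp only [mem_insert, reduceCtorEq, false_or, mem_map, Function.Embedding.some_apply,
        Option.some.injEq, exists_eq_right, mem_erase, Equiv.coe_toEmbedding, Equiv.coe_addLeft]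
      show _ ↔ (y - x ∈ S ∧ ¬ (y = x + t ∧ x ∈ R))
      constructor
      · rintro ⟨a, ⟨hat, haS⟩, rfl⟩
        refine ⟨by rwa [add_sub_cancel_left], ?_⟩
        rintro ⟨h1, -⟩
        exact hat (add_left_cancel h1)
      · rintro ⟨h1, h2⟩
        refine ⟨y - x, ⟨?_, h1⟩, by abel⟩
        intro h3
        exact h2 ⟨by rw [← h3]; abel, hx⟩
  · rw [deg_eq_card _ _ ((S.map (Equiv.addLeft x).toEmbedding).map Function.Embedding.some),
      Finset.card_map, Finset.card_map]
    intro w
    rcases w with _ | y
    · simp [exch, hx]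
    · simp only [mem_map, Function.Embedding.some_apply,
        Option.some.injEq, exists_eq_right, Equiv.coe_toEmbedding, Equiv.coe_addLeft]
      show _ ↔ (y - x ∈ S ∧ ¬ (y = x + t ∧ x ∈ R))
      constructor
      · rintro ⟨a, haS, rfl⟩
        refine ⟨by rwa [add_sub_cancel_left], ?_⟩
        rintro ⟨-, h1⟩
        exact hx h1
      · rintro ⟨h1, h2⟩
        exact ⟨y - x, h1, by abel⟩

theorem add_self_eq_zero {t : ℕ} (x : ZMod (2 * t)) (ht : 0 < t) (h : x + x = 0) :
    x = 0 ∨ x = (t : ZMod (2 * t)) := by
  have : NeZero (2 * t) := ⟨by omega⟩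
  have h1 : ((x.val + x.val : ℕ) : ZMod (2 * t)) = 0 := by
    push_cast
    rw [ZMod.natCast_zmod_val, h]
  rw [ZMod.natCast_eq_zero_iff] at h1
  have h2 := ZMod.val_lt x
  obtain ⟨k, hk⟩ := h1
  have hk2 : k < 2 := by
    by_contra hk2
    have : 2 * t * 2 ≤ 2 * t * k := Nat.mul_le_mul_left _ (by omega)
    omega
  interval_cases k
  · left
    have : x.val = 0 := by omega
    exact (ZMod.val_eq_zero x).1 this
  · right
    have h3 : x.val = t := by omega
    have h4 := ZMod.natCast_zmod_val x
    rw [h3] at h4
    exact h4.symm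

theorem half_ne_zero {t : ℕ} (ht : 0 < t) : (t : ZMod (2 * t)) ≠ 0 := by
  rw [Ne, ZMod.natCast_eq_zero_iff]
  intro h
  have := Nat.le_of_dvd ht h
  omega

theorem half_add_half (t : ℕ) : (t : ZMod (2 * t)) + t = 0 := by
  have : ((2 * t : ℕ) : ZMod (2 * t)) = 0 := ZMod.natCast_self _
  rw [← this]
  push_cast
  ring

/-- A symmetric set of nonzero residues modulo `2 t` of even size, without the residue `t`. -/
theorem exists_symmetric {t : ℕ} (ht : 0 < t) (k : ℕ) (hk : 2 * k + 2 ≤ 2 * t) :
    ∃ S : Finset (ZMod (2 * t)), (0 : ZMod (2 * t)) ∉ S ∧ (t : ZMod (2 * t)) ∉ S ∧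
      (∀ x ∈ S, -x ∈ S) ∧ S.card = 2 * k := by
  have : NeZero (2 * t) := ⟨by omega⟩
  have hF : (((univ : Finset (ZMod (2 * t))).erase 0).erase (t : ZMod (2 * t))).card =
      2 * t - 2 := by
    rw [Finset.card_erase_of_mem, Finset.card_erase_of_mem (mem_univ _), Finset.card_univ,
      ZMod.card]
    · omega
    · simp [half_ne_zero ht]
  have hneg : -(t : ZMod (2 * t)) = t := neg_eq_of_add_eq_zero_left (half_add_half t)
  obtain ⟨R, hRF, hRc, hR⟩ := exists_invariant (fun x : ZMod (2 * t) => -x)
    (((univ : Finset (ZMod (2 * t))).erase 0).erase (t : ZMod (2 * t)))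
    (by
      intro x hx
      simp only [mem_erase, mem_univ, and_true] at hx ⊢
      refine ⟨fun h => hx.1 ?_, fun h => hx.2 (neg_eq_zero.1 h)⟩
      rw [← neg_neg x, h, hneg])
    (by intro x _; exact neg_neg x)
    (by
      intro x hx h
      simp only [mem_erase, mem_univ, and_true] at hx
      have h1 : x + x = 0 := by
        nth_rewrite 1 [← h]
        exact neg_add_cancel x
      rcases add_self_eq_zero x ht h1 with h2 | h2
      · exact hx.2 h2
      · exact hx.1 h2) k (by omega)
  refine ⟨R, ?_, ?_, hR, hRc⟩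
  · intro h
    have := hRF h
    simp at this
  · intro h
    have := hRF h
    simp at this

/-- Regular graphs exist. -/
theorem exists_regular {n r : ℕ} (hr : r < n) (h : Even n ∨ Even r) :
    ∃ G : SimpleGraph (Fin n), ∀ v, deg G v = r := by
  have : NeZero n := ⟨by omega⟩
  have main : ∃ S : Finset (ZMod n), (0 : ZMod n) ∉ S ∧ (∀ x ∈ S, -x ∈ S) ∧ S.card = r := by
    rcases Nat.even_or_odd n with hn | hn
    · obtain ⟨t, rfl⟩ := even_iff_exists_two_mul.1 hn
      have ht : 0 < t := by omega
      rcases Nat.even_or_odd r with hr' | hr'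
      · obtain ⟨k, rfl⟩ := even_iff_exists_two_mul.1 hr'
        obtain ⟨S, h0, -, hneg, hc⟩ := exists_symmetric ht k (by omega)
        exact ⟨S, h0, hneg, hc⟩
      · obtain ⟨k, rfl⟩ := hr'
        obtain ⟨S, h0, hts, hneg, hc⟩ := exists_symmetric ht k (by omega)
        refine ⟨insert (t : ZMod (2 * t)) S, ?_, ?_, ?_⟩
        · simp only [mem_insert, not_or]
          exact ⟨(half_ne_zero ht).symm, h0⟩
        · intro x hx
          simp only [mem_insert] at hx ⊢
          rcases hx with rfl | hx
          · left; exact neg_eq_of_add_eq_zero_left (half_add_half t)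
          · right; exact hneg x hx
        · rw [Finset.card_insert_of_notMem hts, hc]
    · have hr' : Even r := h.resolve_left (Nat.not_even_iff_odd.2 hn)
      obtain ⟨k, rfl⟩ := even_iff_exists_two_mul.1 hr'
      obtain ⟨R, hRF, hRc, hR⟩ := exists_invariant (fun x : ZMod n => -x)
        ((univ : Finset (ZMod n)).erase 0)
        (by
          intro x hx
          simp only [mem_erase, mem_univ, and_true] at hx ⊢
          exact fun h => hx (neg_eq_zero.1 h))
        (by intro x _; exact neg_neg x)
        (by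
          intro x hx h
          simp only [mem_erase, mem_univ, and_true] at hx
          have h1 : x + x = 0 := by
            nth_rewrite 1 [← h]
            exact neg_add_cancel x
          apply hx
          obtain ⟨m, hm⟩ := hn
          have h2 : (n : ZMod n) * x = 0 := by rw [ZMod.natCast_self, zero_mul]
          have h3 : (n : ZMod n) * x = (m : ZMod n) * (x + x) + x := by
            have h4 : (n : ZMod n) = ((2 * m + 1 : ℕ) : ZMod n) := by rw [← hm]
            rw [h4]
            push_cast
            ring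
          rw [h1, mul_zero, zero_add] at h3
          rw [← h3, h2]) k (by
            rw [Finset.card_erase_of_mem (mem_univ _), Finset.card_univ, ZMod.card]
            omega)
      refine ⟨R, ?_, hR, hRc⟩
      intro h
      have := hRF h
      simp at this
  obtain ⟨S, h0, hneg, hc⟩ := main
  have e : Fin n ≃ ZMod n := Fintype.equivOfCardEq (by rw [Fintype.card_fin, ZMod.card])
  refine ⟨(circ S h0 hneg).comap e, fun v => ?_⟩
  rw [deg_comap, deg_circ, hc]

/-- For odd `n` there are graphs with one vertex of degree `r` (even) and all the other vertices of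
degree `s` (odd). -/
theorem exists_almost_regular {n s r : ℕ} (hn : Odd n) (hs : s < n) (hr : r < n) (hso : Odd s)
    (hre : Even r) : ∃ (G : SimpleGraph (Fin n)) (v : Fin n), deg G v = r ∧
      ∀ w, w ≠ v → deg G w = s := by
  obtain ⟨t, rfl⟩ := hn
  obtain ⟨k, rfl⟩ := hso
  obtain ⟨j, rfl⟩ := even_iff_exists_two_mul.1 hre
  have ht : 0 < t := by omega
  have : NeZero (2 * t) := ⟨by omega⟩
  obtain ⟨S, h0, hts, hneg, hc⟩ := exists_symmetric ht k (by omega)
  obtain ⟨R, -, hRc, hR⟩ := exists_invariant (fun x : ZMod (2 * t) => x + t)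
    (univ : Finset (ZMod (2 * t))) (fun _ _ => mem_univ _)
    (fun x _ => by
      show x + t + t = x
      rw [add_assoc, half_add_half, add_zero])
    (fun x _ h => half_ne_zero ht (by simpa using h)) j
    (by rw [Finset.card_univ, ZMod.card]; omega)
  have h0' : (0 : ZMod (2 * t)) ∉ insert (t : ZMod (2 * t)) S := by
    simp only [mem_insert, not_or]
    exact ⟨(half_ne_zero ht).symm, h0⟩
  have hneg' : ∀ x ∈ insert (t : ZMod (2 * t)) S, -x ∈ insert (t : ZMod (2 * t)) S := by
    intro x hx
    simp only [mem_insert] at hx ⊢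
    rcases hx with rfl | hx
    · left; exact neg_eq_of_add_eq_zero_left (half_add_half t)
    · right; exact hneg x hx
  have hc' : (insert (t : ZMod (2 * t)) S).card = 2 * k + 1 := by
    rw [Finset.card_insert_of_notMem hts, hc]
  have e : Fin (2 * t + 1) ≃ Option (ZMod (2 * t)) := Fintype.equivOfCardEq (by
    rw [Fintype.card_fin, Fintype.card_option, ZMod.card])
  refine ⟨(exch (insert (t : ZMod (2 * t)) S) h0' hneg' t (half_add_half t) R hR).comap e,
    e.symm none, ?_, ?_⟩
  · rw [deg_comap, e.apply_symm_apply, deg_exch_none, hRc]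
  · intro w hw
    rw [deg_comap]
    rcases h : e w with _ | x
    · exfalso
      apply hw
      rw [← h, e.symm_apply_apply]
    · rw [deg_exch_some _ h0' hneg' t (half_add_half t) (mem_insert_self _ _) R hR, hc']

/-! ### Conjugate sequences of special graphs -/

theorem conjDeg_regular {n r : ℕ} {G : SimpleGraph (Fin n)} (h : ∀ v, deg G v = r) :
    conjDeg G = (n : ℝ) • ones n r := by
  rw [conjDeg_eq_sum, Finset.sum_congr rfl (fun v _ => by rw [h v]), Finset.sum_const,
    Finset.card_univ, Fintype.card_fin, Nat.cast_smul_eq_nsmul]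

theorem conjDeg_almost {n s r : ℕ} {G : SimpleGraph (Fin n)} {v : Fin n} (hv : deg G v = r)
    (h : ∀ w, w ≠ v → deg G w = s) :
    conjDeg G = ((n : ℝ) - 1) • ones n s + ones n r := by
  classical
  have hn : 1 ≤ n := by
    have := v.2
    omega
  rw [conjDeg_eq_sum, ← Finset.sum_erase_add _ _ (mem_univ v), hv,
    Finset.sum_congr rfl (fun w hw => by rw [h w (Finset.ne_of_mem_erase hw)]), Finset.sum_const,
    Finset.card_erase_of_mem (mem_univ v), Finset.card_univ, Fintype.card_fin,
    ← Nat.cast_smul_eq_nsmul ℝ, Nat.cast_sub hn, Nat.cast_one]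

theorem T_subset_range (n : ℕ) : ∀ x ∈ T n, ∃ G : SimpleGraph (Fin n), conjDeg G = x := by
  rintro x (⟨r, hr, h, rfl⟩ | ⟨hn, s, hs, r, hr, hso, hre, rfl⟩)
  · obtain ⟨G, hG⟩ := exists_regular hr h
    exact ⟨G, conjDeg_regular hG⟩
  · obtain ⟨G, v, hv, hG⟩ := exists_almost_regular hn hs hr hso hre
    exact ⟨G, conjDeg_almost hv hG⟩

theorem extremePoints_C {n : ℕ} (hn : 1 ≤ n) : (C n).extremePoints ℝ = T n := by
  have hsub : T n ⊆ C n := fun x hx => by
    obtain ⟨G, rfl⟩ := T_subset_range n x hx
    exact subset_convexHull ℝ _ ⟨G, rfl⟩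
  have hC : C n = convexHull ℝ (T n) :=
    Set.Subset.antisymm (C_subset_hull hn) (convexHull_min hsub (convex_convexHull ℝ _))
  apply Set.Subset.antisymm
  · rw [hC]
    exact extremePoints_convexHull_subset
  · rintro x hx
    have hx' := hsub hx
    rcases hx with ⟨r, hr, h, rfl⟩ | ⟨hno, s, hs, r, hr, hso, hre, rfl⟩
    · exact extreme_one hr hx'
    · exact extreme_two hno hs hr hso hre hx'

/-- The graphs whose conjugate degree sequence is an extreme point. -/
theorem graph_iff {n : ℕ} (hn : 1 ≤ n) (G : SimpleGraph (Fin n)) :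
    conjDeg G ∈ (C n).extremePoints ℝ ↔ (∃ r, ∀ v, deg G v = r) ∨
      (Odd n ∧ ∃ (v : Fin n) (s : ℕ), Odd s ∧ ∀ w, w ≠ v → deg G w = s) := by
  rw [extremePoints_C hn]
  constructor
  · rintro (⟨r, hr, -, h⟩ | ⟨hno, s, hs, r, hr, hso, hre, h⟩)
    · left
      refine ⟨r, ?_⟩
      have h1 := mult_conjDeg G hr
      rw [h, mult_smul_ones hr hr, if_pos rfl] at h1
      have h2 : (univ.filter fun v => deg G v = r).card = n := by exact_mod_cast h1.symm
      have h3 : (univ.filter fun v => deg G v = r) = univ := by
        rw [← Finset.card_eq_iff_eq_univ, h2, Fintype.card_fin]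
      intro v
      have : v ∈ (univ.filter fun v => deg G v = r) := by rw [h3]; exact mem_univ v
      exact (Finset.mem_filter.1 this).2
    · right
      have hsr : s ≠ r := by
        rintro rfl
        exact (Nat.not_even_iff_odd.2 hso) hre
      refine ⟨hno, ?_⟩
      have h1 := mult_conjDeg G hs
      rw [h, mult_two hs hr hsr hs, if_pos rfl] at h1
      have h2 : (univ.filter fun v => deg G v = s).card + 1 = n := by
        have : ((univ.filter fun v => deg G v = s).card : ℝ) + 1 = n := by linarith
        exact_mod_cast this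
      have h3 : (univ.filter fun v => ¬ deg G v = s).card = 1 := by
        have := Finset.card_filter_add_card_filter_not (s := (univ : Finset (Fin n)))
          (p := fun v => deg G v = s)
        rw [Finset.card_univ, Fintype.card_fin] at this
        omega
      obtain ⟨v, hv⟩ := Finset.card_eq_one.1 h3
      refine ⟨v, s, hso, fun w hw => ?_⟩
      by_contra hne
      have : w ∈ (univ.filter fun v => ¬ deg G v = s) := Finset.mem_filter.2 ⟨mem_univ w, hne⟩
      rw [hv, Finset.mem_singleton] at this
      exact hw this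
  · rintro (⟨r, h⟩ | ⟨hno, v, s, hso, h⟩)
    · left
      have hr : r < n := by
        have := deg_lt G ⟨0, hn⟩
        rwa [h] at this
      refine ⟨r, hr, ?_, conjDeg_regular h⟩
      rcases Nat.even_or_odd n with he | ho
      · exact Or.inl he
      · right
        by_contra hodd
        have h1 := even_odd_card G
        have h2 : (univ.filter fun v => Odd (deg G v)) = univ := by
          rw [Finset.filter_eq_self]
          intro v _
          rw [h v]
          exact Nat.not_even_iff_odd.1 hodd
        rw [h2, Finset.card_univ, Fintype.card_fin] at h1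
        exact (Nat.not_even_iff_odd.2 ho) h1
    · have hre : Even (deg G v) := by
        by_contra hodd
        have h1 := even_odd_card G
        have h2 : (univ.filter fun v => Odd (deg G v)) = univ := by
          rw [Finset.filter_eq_self]
          intro w _
          by_cases hw : w = v
          · rw [hw]
            exact Nat.not_even_iff_odd.1 hodd
          · rw [h w hw]
            exact hso
        rw [h2, Finset.card_univ, Fintype.card_fin] at h1
        exact (Nat.not_even_iff_odd.2 hno) h1
      rcases Nat.lt_or_ge n 2 with h1 | h1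
      · -- a single vertex
        left
        have hn1 : n = 1 := by omega
        have hall : ∀ w, deg G w = 0 := by
          intro w
          have := deg_lt G w
          omega
        exact ⟨0, by omega, Or.inr (by norm_num), conjDeg_regular hall⟩
      · right
        have : ∃ w : Fin n, w ≠ v := by
          have : Nontrivial (Fin n) := Fin.nontrivial_iff_two_le.2 h1
          exact exists_ne v
        obtain ⟨w, hw⟩ := this
        have hs : s < n := by
          rw [← h w hw]
          exact deg_lt G w
        exact ⟨hno, s, hs, deg G v, deg_lt G v, hso, hre, conjDeg_almost rfl h⟩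

/-- The extreme points of the hull `C n` of the conjugate degree sequences of the graphs with `n`
vertices, and the graphs giving extreme points. Here `ones n r` is the sequence `(1, …, 1, 0, …, 0)`
with `r` ones. For even `n` the extreme points are the `n` sequences `(n, …, n, 0, …, 0)`. For odd
`n` they are these sequences with an even number of entries `n`, and the sequences
`(n - 1) • ones n s + ones n r` with `s` odd and `r` even. -/
theorem result : ∀ n : ℕ, 1 ≤ n →
    (Even n → (C n).extremePoints ℝ = {x | ∃ r < n, x = (n : ℝ) • ones n r}) ∧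
    (Odd n → (C n).extremePoints ℝ =
      {x | ∃ r < n, Even r ∧ x = (n : ℝ) • ones n r} ∪
      {x | ∃ s < n, ∃ r < n, Odd s ∧ Even r ∧ x = ((n : ℝ) - 1) • ones n s + ones n r}) ∧
    ∀ G : SimpleGraph (Fin n), conjDeg G ∈ (C n).extremePoints ℝ ↔
      (∃ r, ∀ v, deg G v = r) ∨
      (Odd n ∧ ∃ (v : Fin n) (s : ℕ), Odd s ∧ ∀ w, w ≠ v → deg G w = s) := by
  intro n hn
  refine ⟨fun he => ?_, fun ho => ?_, graph_iff hn⟩
  · rw [extremePoints_C hn]
    ext x
    constructor
    · rintro (⟨r, hr, -, h⟩ | ⟨ho, -⟩)
      · exact ⟨r, hr, h⟩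
      · exact absurd he (Nat.not_even_iff_odd.2 ho)
    · rintro ⟨r, hr, h⟩
      exact Or.inl ⟨r, hr, Or.inl he, h⟩
  · rw [extremePoints_C hn]
    ext x
    constructor
    · rintro (⟨r, hr, h', h⟩ | ⟨-, h⟩)
      · left
        exact ⟨r, hr, h'.resolve_left (Nat.not_even_iff_odd.2 ho), h⟩
      · right
        exact h
    · rintro (⟨r, hr, h', h⟩ | h)
      · exact Or.inl ⟨r, hr, Or.inr h', h⟩
      · exact Or.inr ⟨ho, h⟩

end Pool.Agent.Results.MP_1867d3_co.ExtremeConjugate
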